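import Mathlib

set_option autoImplicit false

/-! Ergodic cocycle perturbations of strictly outer actions: definitions. -/

namespace Pool.Agent.N469.EP

open scoped InnerProductSpace

section general

variable {H : Type} [NormedAddCommGroup H] [InnerProductSpace ℂ H] [CompleteSpace H]

/-- The star algebra of the elements of a von Neumann algebra. -/
abbrev El (M : VonNeumannAlgebra H) : Type := M.toStarSubalgebra

/-- `M` is a II₁ factor: its centre is trivial, it is infinite-dimensional, and there is a unit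
vector `ω` such that the (normal) state `x ↦ ⟨ω, x ω⟩` of `M` is a trace. -/
structure IsIIOne (M : VonNeumannAlgebra H) : Prop where
  factor : ∀ x : El M, (∀ y : El M, x * y = y * x) → ∃ c : ℂ, x = c • (1 : El M)
  infinite : ¬ FiniteDimensional ℂ (El M)
  trace : ∃ ω : H, ‖ω‖ = 1 ∧ ∀ x y : El M,
    ⟪ω, ((x * y : El M) : H →L[ℂ] H) ω⟫_ℂ = ⟪ω, ((y * x : El M) : H →L[ℂ] H) ω⟫_ℂ

variable {G : Type} [Group G] {M : VonNeumannAlgebra H}

/-- The Hilbert space `ℓ²(G, H)`. -/
abbrev LTwo (G H : Type) [NormedAddCommGroup H] : Type := lp (fun _ : G => H) 2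

/-- `T` is the operator `π_α(x)` on `ℓ²(G, H)`: `(T ξ)(g) = α_{g⁻¹}(x) ξ(g)`. -/
def IsPi (α : G →* (El M ≃⋆ₐ[ℂ] El M)) (x : El M) (T : LTwo G H →L[ℂ] LTwo G H) : Prop :=
  ∀ (ξ : LTwo G H) (g : G), (T ξ) g = ((α g⁻¹ x : El M) : H →L[ℂ] H) (ξ g)

/-- `T` is the operator `λ_s` on `ℓ²(G, H)`: `(T ξ)(g) = ξ(s⁻¹ g)`. -/
def IsLam (s : G) (T : LTwo G H →L[ℂ] LTwo G H) : Prop :=
  ∀ (ξ : LTwo G H) (g : G), (T ξ) g = ξ (s⁻¹ * g)

/-- The operators `π_α(x)`, `x ∈ M`, and `λ_s`, `s ∈ G`. -/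
def gens (α : G →* (El M ≃⋆ₐ[ℂ] El M)) : Set (LTwo G H →L[ℂ] LTwo G H) :=
  {T | ∃ x : El M, IsPi α x T} ∪ {T | ∃ s : G, IsLam s T}

/-- The von Neumann crossed product `M ⋊_α G` (for discrete `G`), acting on `ℓ²(G, H)`: the
bicommutant of the operators `π_α(x)` and `λ_s`. -/
def crossed (α : G →* (El M ≃⋆ₐ[ℂ] El M)) : Set (LTwo G H →L[ℂ] LTwo G H) :=
  Set.centralizer (Set.centralizer (gens α))

/-- `α` is strictly outer: `π_α(M)' ∩ (M ⋊_α G) = ℂ 1`. -/
def StrictlyOuter (α : G →* (El M ≃⋆ₐ[ℂ] El M)) : Prop :=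
  ∀ T ∈ crossed α, (∀ (x : El M) (P : LTwo G H →L[ℂ] LTwo G H), IsPi α x P → T * P = P * T) →
    ∃ c : ℂ, T = c • (1 : LTwo G H →L[ℂ] LTwo G H)

/-- `v` is a 1-cocycle for `α`: `v_g` is a unitary of `M` and `v_{gh} = v_g α_g(v_h)`. -/
structure IsCocycle (α : G →* (El M ≃⋆ₐ[ℂ] El M)) (v : G → El M) : Prop where
  left : ∀ g, star (v g) * v g = 1
  right : ∀ g, v g * star (v g) = 1
  mul : ∀ g h, v (g * h) = v g * α g (v h)

/-- `β_g = Ad v_g ∘ α_g`. -/
noncomputable def perturb (α : G →* (El M ≃⋆ₐ[ℂ] El M)) (v : G → El M) (g : G) (x : El M) : El M :=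
  v g * α g x * star (v g)

/-- the fixed point algebra of the maps `β_g` of `M` is trivial -/
def Ergodic (β : G → El M → El M) : Prop :=
  ∀ x : El M, (∀ g, β g x = x) → ∃ c : ℂ, x = c • (1 : El M)

end general

section twist

variable {I K : Type} [NormedAddCommGroup K] [InnerProductSpace ℂ K]

/-- The operator `(T f)(g) = A_g (f (e g))` on `ℓ²(I, K)` given by a bijection `e` of `I` and
isometries `A_g` of `K`. -/
noncomputable def tw (e : I ≃ I) (A : I → (K →ₗᵢ[ℂ] K)) :
    lp (fun _ : I => K) 2 →L[ℂ] lp (fun _ : I => K) 2 :=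
  LinearIsometry.toContinuousLinearMap
    { toFun := fun f => ⟨fun h => A h (f (e h)), by
        have h1 := (lp.memℓp f).summable (by norm_num)
        refine memℓp_gen ?_
        simp only [LinearIsometry.norm_map]
        exact (e.summable_iff (f := fun h => ‖f h‖ ^ (2 : ENNReal).toReal)).2 h1⟩
      map_add' := fun f g => by ext h; simp
      map_smul' := fun c f => by ext h; simp
      norm_map' := fun f => by
        have h1 : (0 : ℝ) < (2 : ENNReal).toReal := by norm_num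
        rw [lp.norm_eq_tsum_rpow h1, lp.norm_eq_tsum_rpow h1]
        congr 1
        refine (tsum_congr fun h => ?_).trans
          (e.tsum_eq (fun h => ‖f h‖ ^ (2 : ENNReal).toReal))
        show ‖A h (f (e h))‖ ^ (2 : ENNReal).toReal = ‖f (e h)‖ ^ (2 : ENNReal).toReal
        rw [LinearIsometry.norm_map] }

theorem tw_apply (e : I ≃ I) (A : I → (K →ₗᵢ[ℂ] K)) (f : lp (fun _ : I => K) 2) (h : I) :
    (tw e A f) h = A h (f (e h)) := rfl

end twist

section group

/-- The Hilbert space `ℓ²(Γ)`. -/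
abbrev Ell (Γ : Type) : Type := lp (fun _ : Γ => ℂ) 2

variable {Γ : Type} [Group Γ]

/-- the operator `f ↦ f ∘ e` on `ℓ²(Γ)` -/
noncomputable def perm (e : Γ ≃ Γ) : Ell Γ →L[ℂ] Ell Γ := tw e (fun _ => LinearIsometry.id)

theorem perm_apply (e : Γ ≃ Γ) (f : Ell Γ) (h : Γ) : (perm e f) h = f (e h) := rfl

/-- the left regular representation: `(λ_g f)(h) = f(g⁻¹ h)` -/
noncomputable def lam (g : Γ) : Ell Γ →L[ℂ] Ell Γ := perm (Equiv.mulLeft g⁻¹)

/-- the right regular representation: `(ρ_g f)(h) = f(h g)` -/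
noncomputable def rho (g : Γ) : Ell Γ →L[ℂ] Ell Γ := perm (Equiv.mulRight g)

theorem lam_apply (g : Γ) (f : Ell Γ) (h : Γ) : (lam g f) h = f (g⁻¹ * h) := rfl

theorem rho_apply (g : Γ) (f : Ell Γ) (h : Γ) : (rho g f) h = f (h * g) := rfl

/-- the basis vector `δ_g` of `ℓ²(Γ)` -/
noncomputable def delta (g : Γ) : Ell Γ :=
  haveI := Classical.decEq Γ
  lp.single 2 g (1 : ℂ)

theorem delta_self (g : Γ) : (delta g) g = 1 := by
  simp [delta]

theorem delta_ne {g h : Γ} (hne : h ≠ g) : (delta g) h = 0 := by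
  simp [delta, hne]

variable (Γ) in
/-- The group von Neumann algebra `L(Γ)`: the bicommutant of the left translations. -/
noncomputable def LG : VonNeumannAlgebra (Ell Γ) where
  toStarSubalgebra := StarSubalgebra.centralizer ℂ
    (StarSubalgebra.centralizer ℂ (Set.range (lam (Γ := Γ))) : Set (Ell Γ →L[ℂ] Ell Γ))
  centralizer_centralizer' := by
    show Set.centralizer (Set.centralizer ((StarSubalgebra.centralizer ℂ
      (StarSubalgebra.centralizer ℂ (Set.range (lam (Γ := Γ))) : Set (Ell Γ →L[ℂ] Ell Γ)) :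
        StarSubalgebra ℂ (Ell Γ →L[ℂ] Ell Γ)) :
        Set (Ell Γ →L[ℂ] Ell Γ))) = ((StarSubalgebra.centralizer ℂ
      (StarSubalgebra.centralizer ℂ (Set.range (lam (Γ := Γ))) : Set (Ell Γ →L[ℂ] Ell Γ)) :
        StarSubalgebra ℂ (Ell Γ →L[ℂ] Ell Γ)) :
        Set (Ell Γ →L[ℂ] Ell Γ))
    rw [StarSubalgebra.coe_centralizer_centralizer, Set.centralizer_centralizer_centralizer]

end group

section example_group

/-- The group of finitely supported permutations of `X`. -/
def FP (X : Type) : Subgroup (Equiv.Perm X) where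
  carrier := {σ | {x | σ x ≠ x}.Finite}
  one_mem' := by simp
  mul_mem' := by
    intro a b ha hb
    refine (ha.union hb).subset ?_
    intro x hx
    by_contra hcon
    simp only [Set.mem_union, Set.mem_setOf_eq, not_or, not_not] at hcon
    apply hx
    rw [Equiv.Perm.mul_apply, hcon.2, hcon.1]
  inv_mem' := by
    intro a ha
    refine Set.Finite.subset ha ?_
    intro x hx hcon
    apply hx
    rw [Equiv.Perm.inv_eq_iff_eq]
    exact hcon.symm

/-- Conjugation by a permutation `t` of `X`, as an automorphism of `FP X`. -/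
def cj {X : Type} (t : Equiv.Perm X) : FP X ≃* FP X where
  toFun x := ⟨t * x * t⁻¹, by
    have h := x.2
    refine (Set.Finite.image t h).subset ?_
    intro y hy
    refine ⟨t⁻¹ y, ?_, by simp⟩
    intro hcon
    apply hy
    show t ((x : Equiv.Perm X) (t⁻¹ y)) = y
    rw [hcon]
    simp⟩
  invFun x := ⟨t⁻¹ * x * t, by
    have h := x.2
    refine (Set.Finite.image (t⁻¹ : Equiv.Perm X) h).subset ?_
    intro y hy
    refine ⟨t y, ?_, by simp⟩
    intro hcon
    apply hy
    show t⁻¹ ((x : Equiv.Perm X) (t y)) = y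
    rw [hcon]
    simp⟩
  left_inv x := by
    apply Subtype.ext
    show t⁻¹ * (t * (x : Equiv.Perm X) * t⁻¹) * t = x
    group
  right_inv x := by
    apply Subtype.ext
    show t * (t⁻¹ * (x : Equiv.Perm X) * t) * t⁻¹ = x
    group
  map_mul' x y := by
    apply Subtype.ext
    show t * ((x : Equiv.Perm X) * y) * t⁻¹ = (t * x * t⁻¹) * (t * y * t⁻¹)
    group

variable (G : Type) [Group G]

/-- The translation by `s` of the copy of `G` in the disjoint union of `ℝ` and `G`. -/
def tr (s : G) : Equiv.Perm (ℝ ⊕ G) := Equiv.sumCongr (Equiv.refl ℝ) (Equiv.mulLeft s)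

/-- The group `Γ` of finitely supported permutations of `ℝ ⊕ G`. -/
abbrev Ga : Type := FP (ℝ ⊕ G)

/-- The automorphism `σ_s` of `Γ`. -/
abbrev sg (s : G) : Ga G ≃* Ga G := cj (tr G s)

/-- The unitary `W_s` of `ℓ²(Γ)`: `(W_s f)(h) = f(σ_s⁻¹ h)`. -/
noncomputable def WW (s : G) : Ell (Ga G) →L[ℂ] Ell (Ga G) := perm (sg G s).symm.toEquiv

end example_group

end Pool.Agent.N469.EP
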