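import Mathlib
import Pool.Agent.N469.EP.Defs

set_option autoImplicit false

/-! Basic facts on `ℓ²(Γ)` and `L(Γ)`. -/

namespace Pool.Agent.N469.EP

open scoped InnerProductSpace

variable {Γ : Type} [Group Γ]

theorem perm_delta (e : Γ ≃ Γ) (g : Γ) : perm e (delta g) = delta (e.symm g) := by
  ext h
  rw [perm_apply]
  by_cases hh : h = e.symm g
  · subst hh; rw [e.apply_symm_apply, delta_self, delta_self]
  · rw [delta_ne hh, delta_ne (by rintro rfl; exact hh (by simp))]

theorem lam_delta (g h : Γ) : lam g (delta h) = delta (g * h) := by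
  unfold lam
  rw [perm_delta]
  congr 1
  simp [Equiv.symm_apply_eq]

theorem rho_delta (g h : Γ) : rho g (delta h) = delta (h * g⁻¹) := by
  unfold rho
  rw [perm_delta]
  congr 1

theorem inner_delta (g : Γ) (f : Ell Γ) : ⟪(delta g : Ell Γ), f⟫_ℂ = f g := by
  classical
  unfold delta
  have := lp.inner_single_left (𝕜 := ℂ) (G := fun _ : Γ => ℂ) g (1 : ℂ) f
  convert this using 1
  simp

theorem norm_delta (g : Γ) : ‖(delta g : Ell Γ)‖ = 1 := by
  classical
  have h := lp.norm_single (E := fun _ : Γ => ℂ) (p := 2) (by norm_num) g (1 : ℂ)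
  rw [norm_one] at h
  rw [← h]
  congr 1

theorem delta_inj {g h : Γ} (hgh : (delta g : Ell Γ) = delta h) : g = h := by
  by_contra hne
  have h1 := congrArg (fun f : Ell Γ => f g) hgh
  simp only [delta_self, delta_ne hne] at h1
  exact one_ne_zero h1

/-- two operators which agree on the basis vectors are equal -/
theorem op_ext {E : Type} [NormedAddCommGroup E] [InnerProductSpace ℂ E]
    {S T : Ell Γ →L[ℂ] E} (h : ∀ g, S (delta g) = T (delta g)) : S = T := by
  classical
  apply ContinuousLinearMap.ext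
  intro f
  have h1 : HasSum (fun g => lp.single 2 g (f g)) f := lp.hasSum_single (by norm_num) f
  have hd : ∀ g, (lp.single 2 g (f g) : Ell Γ) = (f g) • delta g := by
    intro g
    ext k
    by_cases hk : k = g
    · subst hk
      simp [delta_self]
    · simp [delta_ne hk, hk]
  have key : ∀ (U : Ell Γ →L[ℂ] E), HasSum (fun g => (f g) • U (delta g)) (U f) := by
    intro U
    have h2 := U.hasSum h1
    have h3 : (fun g => (f g) • U (delta g)) = fun g => U (lp.single 2 g (f g)) := by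
      funext g
      rw [hd, map_smul]
    rw [h3]
    exact h2
  have h4 := key T
  have h5 : (fun g => (f g) • T (delta g)) = fun g => (f g) • S (delta g) := by
    funext g; rw [h]
  rw [h5] at h4
  exact (key S).unique h4

theorem lam_one : lam (1 : Γ) = 1 := by
  apply op_ext; intro g; rw [lam_delta, one_mul]; rfl

theorem lam_mul (g h : Γ) : lam (g * h) = lam g * lam h := by
  apply op_ext; intro k
  show lam (g * h) (delta k) = lam g (lam h (delta k))
  rw [lam_delta, lam_delta, lam_delta, mul_assoc]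

theorem rho_mul (g h : Γ) : rho (g * h) = rho g * rho h := by
  apply op_ext; intro k
  show rho (g * h) (delta k) = rho g (rho h (delta k))
  rw [rho_delta, rho_delta, rho_delta, mul_inv_rev, mul_assoc]

theorem lam_rho (g h : Γ) : lam g * rho h = rho h * lam g := by
  apply op_ext; intro k
  show lam g (rho h (delta k)) = rho h (lam g (delta k))
  rw [rho_delta, lam_delta, lam_delta, rho_delta, mul_assoc]

theorem star_perm (e : Γ ≃ Γ) : star (perm e) = perm e.symm := by
  rw [ContinuousLinearMap.star_eq_adjoint]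
  symm
  rw [ContinuousLinearMap.eq_adjoint_iff]
  intro x y
  rw [lp.inner_eq_tsum, lp.inner_eq_tsum]
  rw [← e.tsum_eq]
  apply tsum_congr
  intro h
  rw [perm_apply, perm_apply, e.symm_apply_apply]

theorem star_lam (g : Γ) : star (lam g) = lam g⁻¹ := by
  unfold lam
  rw [star_perm]
  congr 1
  ext h
  simp [Equiv.symm_apply_eq]

theorem star_rho (g : Γ) : star (rho g) = rho g⁻¹ := by
  unfold rho
  rw [star_perm]
  rfl

theorem mem_LG_iff (T : Ell Γ →L[ℂ] Ell Γ) :
    T ∈ LG Γ ↔ ∀ Y : Ell Γ →L[ℂ] Ell Γ, (∀ g, Y * lam g = lam g * Y) → T * Y = Y * T := by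
  have hc : ∀ Y : Ell Γ →L[ℂ] Ell Γ, (∀ g, Y * lam g = lam g * Y) →
      Y ∈ StarSubalgebra.centralizer ℂ (Set.range (lam (Γ := Γ))) := by
    intro Y hY
    rw [StarSubalgebra.mem_centralizer_iff]
    rintro _ ⟨g, rfl⟩
    refine ⟨(hY g).symm, ?_⟩
    rw [star_lam]
    exact (hY g⁻¹).symm
  constructor
  · intro hT Y hY
    have h1 : T ∈ StarSubalgebra.centralizer ℂ
      (StarSubalgebra.centralizer ℂ (Set.range (lam (Γ := Γ))) : Set (Ell Γ →L[ℂ] Ell Γ)) := hT
    rw [StarSubalgebra.mem_centralizer_iff] at h1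
    exact ((h1 Y (hc Y hY)).1).symm
  · intro hT
    show T ∈ StarSubalgebra.centralizer ℂ
      (StarSubalgebra.centralizer ℂ (Set.range (lam (Γ := Γ))) : Set (Ell Γ →L[ℂ] Ell Γ))
    rw [StarSubalgebra.mem_centralizer_iff]
    intro Y hY
    have h2 : ∀ Z ∈ StarSubalgebra.centralizer ℂ (Set.range (lam (Γ := Γ))),
        ∀ g, Z * lam g = lam g * Z := by
      intro Z hZ g
      rw [StarSubalgebra.mem_centralizer_iff] at hZ
      exact ((hZ (lam g) ⟨g, rfl⟩).1).symm
    exact ⟨(hT Y (h2 Y hY)).symm, (hT (star Y) (h2 _ (star_mem hY))).symm⟩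

theorem lam_mem (g : Γ) : lam g ∈ LG Γ := by
  rw [mem_LG_iff]
  intro Y hY
  exact (hY g).symm

theorem LG_rho {x : Ell Γ →L[ℂ] Ell Γ} (hx : x ∈ LG Γ) (g : Γ) : x * rho g = rho g * x :=
  (mem_LG_iff x).1 hx (rho g) (fun h => (lam_rho h g).symm)

theorem LG_delta {x : Ell Γ →L[ℂ] Ell Γ} (hx : x ∈ LG Γ) (h k : Γ) :
    (x (delta h)) k = (x (delta 1)) (k * h⁻¹) := by
  have h1 : (delta h : Ell Γ) = rho h⁻¹ (delta 1) := by rw [rho_delta]; simp
  rw [h1, ← rho_apply]
  show (x * rho h⁻¹) (delta 1) k = _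
  rw [LG_rho hx]
  rfl

theorem LG_ext {x y : Ell Γ →L[ℂ] Ell Γ} (hx : x ∈ LG Γ) (hy : y ∈ LG Γ)
    (h : x (delta 1) = y (delta 1)) : x = y := by
  apply op_ext
  intro g
  ext k
  rw [LG_delta hx, LG_delta hy, h]

end Pool.Agent.N469.EP
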