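import Mathlib
import Pool.Agent.N469.EP.Basic

set_option autoImplicit false

/-! Statements of the steps. -/

namespace Pool.Agent.N469.EP

open scoped InnerProductSpace

/-- TR: the vector state of `δ_1` is a trace on `L(Γ)`. -/
def S_tr : Prop := ∀ (Γ : Type) [Group Γ] (x y : Ell Γ →L[ℂ] Ell Γ), x ∈ LG Γ → y ∈ LG Γ →
  ⟪(delta 1 : Ell Γ), (x * y) (delta 1)⟫_ℂ = ⟪(delta 1 : Ell Γ), (y * x) (delta 1)⟫_ℂ

/-- INF: `L(Γ)` is infinite-dimensional for infinite `Γ`. -/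
def S_inf : Prop := ∀ (Γ : Type) [Group Γ] [Infinite Γ], ¬ FiniteDimensional ℂ (El (LG Γ))

/-- IFP: `FP X` is infinite for infinite `X`. -/
def S_ifp : Prop := ∀ (X : Type) [Infinite X], Infinite (FP X)

/-- `α_s = Ad W_s` for all `s`. -/
def IsAd {G : Type} [Group G] (α : G →* (El (LG (Ga G)) ≃⋆ₐ[ℂ] El (LG (Ga G)))) : Prop :=
  ∀ (s : G) (x : El (LG (Ga G))),
    ((α s x : El (LG (Ga G))) : Ell (Ga G) →L[ℂ] Ell (Ga G)) = WW G s * x * WW G s⁻¹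

/-- AUT: the action `α` exists. -/
def S_aut : Prop := ∀ (G : Type) [Group G],
  ∃ α : G →* (El (LG (Ga G)) ≃⋆ₐ[ℂ] El (LG (Ga G))), IsAd α

/-- CJ: a square summable function on `FP X` which is constant on the twisted conjugacy classes
vanishes at `k` if `t k ≠ 1`. -/
def S_cj : Prop := ∀ (X : Type) [Infinite X] (t : Equiv.Perm X) (f : Ell (FP X)),
  (∀ h k : FP X, f ((cj t⁻¹ h)⁻¹ * k * h) = f k) →
  ∀ k : FP X, t * (k : Equiv.Perm X) ≠ 1 → f k = 0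

/-- FAC: `L(FP X)` is a factor. -/
def S_fac : Prop := ∀ (X : Type) [Infinite X] (x : El (LG (FP X))),
  (∀ y : El (LG (FP X)), x * y = y * x) → ∃ c : ℂ, x = c • (1 : El (LG (FP X)))

/-- the vector `δ_1 ⊗ δ_1` of `ℓ²(G, ℓ²(Γ))` -/
noncomputable def xi0 (G : Type) [Group G] : LTwo G (Ell (Ga G)) :=
  haveI := Classical.decEq G
  lp.single 2 1 (delta (1 : Ga G))

/-- SOA: an operator `T` of the crossed product commuting with `π(M)`: the coordinates of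
`T (δ_1 ⊗ δ_1)` are constant on twisted conjugacy classes. -/
def S_soa : Prop := ∀ (G : Type) [Group G]
  (α : G →* (El (LG (Ga G)) ≃⋆ₐ[ℂ] El (LG (Ga G)))), IsAd α →
  ∀ T ∈ crossed α, (∀ (x : El (LG (Ga G))) (P : LTwo G (Ell (Ga G)) →L[ℂ] LTwo G (Ell (Ga G))),
    IsPi α x P → T * P = P * T) →
  ∀ (g : G) (h k : Ga G), (T (xi0 G) g) ((cj (tr G g)⁻¹ h)⁻¹ * k * h) = (T (xi0 G) g) k

/-- SOB: `δ_1 ⊗ δ_1` is separating for the crossed product. -/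
def S_sob : Prop := ∀ (G : Type) [Group G]
  (α : G →* (El (LG (Ga G)) ≃⋆ₐ[ℂ] El (LG (Ga G)))), IsAd α →
  ∀ T ∈ crossed α, ∀ c : ℂ, T (xi0 G) = c • xi0 G →
    T = c • (1 : LTwo G (Ell (Ga G)) →L[ℂ] LTwo G (Ell (Ga G)))

/-- FIX: for countable `G` and arbitrary elements `v_g` of `M` there is a nonscalar `x ∈ M` fixed
by `α` and commuting with all `v_g`. -/
def S_fix : Prop := ∀ (G : Type) [Group G] [Countable G]
  (α : G →* (El (LG (Ga G)) ≃⋆ₐ[ℂ] El (LG (Ga G)))), IsAd α →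
  ∀ v : G → El (LG (Ga G)), ∃ x : El (LG (Ga G)), (∀ g, α g x = x) ∧ (∀ g, v g * x = x * v g) ∧
    ∀ c : ℂ, x ≠ c • (1 : El (LG (Ga G)))

end Pool.Agent.N469.EP
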