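import Mathlib
import Pool.Agent.N469.EP.Stm

set_option autoImplicit false

/-! Assembly. -/

namespace Pool.Agent.N469.EP

open scoped InnerProductSpace

theorem tr_one (G : Type) [Group G] : tr G 1 = 1 := by
  ext x
  rcases x with x | x
  · rfl
  · show Sum.inr (1 * x) = Sum.inr x
    rw [one_mul]

theorem tr_not_fin {G : Type} [Group G] [Infinite G] {g : G} (hg : g ≠ 1) (k : Ga G) :
    tr G g * (k : Equiv.Perm (ℝ ⊕ G)) ≠ 1 := by
  intro h
  have h1 : tr G g = ((k⁻¹ : Ga G) : Equiv.Perm (ℝ ⊕ G)) := by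
    rw [Subgroup.coe_inv]
    exact eq_inv_of_mul_eq_one_left h
  have h2 : {x | ((k⁻¹ : Ga G) : Equiv.Perm (ℝ ⊕ G)) x ≠ x}.Finite := (k⁻¹).2
  rw [← h1] at h2
  have h3 : (Set.range (Sum.inr : G → ℝ ⊕ G)).Finite := by
    refine h2.subset ?_
    rintro _ ⟨x, rfl⟩
    show Sum.inr (g * x) ≠ (Sum.inr x : ℝ ⊕ G)
    intro h4
    have h5 := Sum.inr_injective h4
    exact hg (by simpa using h5)
  exact Set.infinite_range_of_injective Sum.inr_injective h3

theorem so (hcj : S_cj) (hsoa : S_soa) (hsob : S_sob) {G : Type} [Group G] [Infinite G]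
    (α : G →* (El (LG (Ga G)) ≃⋆ₐ[ℂ] El (LG (Ga G)))) (hα : IsAd α) : StrictlyOuter α := by
  classical
  intro T hT hc
  have h1 := hsoa G α hα T hT hc
  have h2 : ∀ (g : G) (k : Ga G), tr G g * (k : Equiv.Perm (ℝ ⊕ G)) ≠ 1 →
      (T (xi0 G) g) k = 0 := by
    intro g k hk
    exact hcj (ℝ ⊕ G) (tr G g) (T (xi0 G) g) (h1 g) k hk
  refine ⟨(T (xi0 G) 1) 1, hsob G α hα T hT _ ?_⟩
  ext g k
  by_cases hg : g = 1
  · subst hg
    have h3 : (xi0 G) 1 = delta (1 : Ga G) := by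
      unfold xi0
      exact lp.single_apply_self _ _ _
    show (T (xi0 G) 1) k = (T (xi0 G) 1) 1 * ((xi0 G) 1) k
    rw [h3]
    by_cases hk : k = 1
    · subst hk
      rw [delta_self, mul_one]
    · rw [delta_ne hk, mul_zero]
      apply h2
      rw [tr_one, one_mul]
      intro h4
      exact hk (Subtype.ext h4)
  · have h3 : (xi0 G) g = 0 := by
      unfold xi0
      exact lp.single_apply_ne _ _ _ hg
    show (T (xi0 G) g) k = (T (xi0 G) 1) 1 * ((xi0 G) g) k
    rw [h3, h2 g k (tr_not_fin hg k)]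
    simp

theorem main (htr : S_tr) (hinf : S_inf) (hifp : S_ifp) (haut : S_aut) (hcj : S_cj) (hfac : S_fac)
    (hsoa : S_soa) (hsob : S_sob) (hfix : S_fix)
    (G : Type) [Group G] [Countable G] [Infinite G] :
    ∃ (H : Type) (_ : NormedAddCommGroup H) (_ : InnerProductSpace ℂ H) (_ : CompleteSpace H)
      (M : VonNeumannAlgebra H) (α : G →* (El M ≃⋆ₐ[ℂ] El M)),
      IsIIOne M ∧ StrictlyOuter α ∧
        ∀ v : G → El M, IsCocycle α v → ¬ Ergodic (perturb α v) := by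
  obtain ⟨α, hα⟩ := haut G
  haveI : Infinite (Ga G) := hifp (ℝ ⊕ G)
  refine ⟨Ell (Ga G), inferInstance, inferInstance, inferInstance, LG (Ga G), α, ?_,
    so hcj hsoa hsob α hα, ?_⟩
  · exact ⟨hfac (ℝ ⊕ G), hinf (Ga G), delta 1, norm_delta 1,
      fun x y => htr (Ga G) x y x.2 y.2⟩
  · intro v hv herg
    obtain ⟨x, hx1, hx2, hx3⟩ := hfix G α hα v
    obtain ⟨c, hc⟩ := herg x (by
      intro g
      unfold perturb
      rw [hx1 g, hx2 g, mul_assoc, hv.right g, mul_one])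
    exact hx3 c hc

end Pool.Agent.N469.EP
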