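import Pool.Agent.N469.EP.Stm

/-!
# Project ERG (helper469), part AUT (helper862): the action `α_s = Ad W_s`
-/

set_option autoImplicit false
set_option linter.all false

namespace Pool.Agent.N469.EP

open scoped InnerProductSpace

namespace AutAux

variable (G : Type) [Group G]

theorem tr_mul (s t : G) : tr G (s * t) = tr G s * tr G t := by
  apply Equiv.ext
  intro x
  cases x with
  | inl r => rfl
  | inr g =>
    show (Sum.inr (s * t * g) : ℝ ⊕ G) = Sum.inr (s * (t * g))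
    rw [mul_assoc]

theorem tr_one : tr G 1 = 1 := by
  apply Equiv.ext
  intro x
  cases x with
  | inl r => rfl
  | inr g =>
    show (Sum.inr (1 * g) : ℝ ⊕ G) = Sum.inr g
    rw [one_mul]

theorem sg_mul (s t : G) (h : Ga G) : sg G (s * t) h = sg G s (sg G t h) := by
  apply Subtype.ext
  show tr G (s * t) * (h : Equiv.Perm (ℝ ⊕ G)) * (tr G (s * t))⁻¹ =
    tr G s * (tr G t * h * (tr G t)⁻¹) * (tr G s)⁻¹
  rw [tr_mul]
  group

theorem sg_one (h : Ga G) : sg G 1 h = h := by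
  apply Subtype.ext
  show tr G 1 * (h : Equiv.Perm (ℝ ⊕ G)) * (tr G 1)⁻¹ = h
  rw [tr_one]
  group

theorem sg_inv (s : G) (h : Ga G) : sg G s (sg G s⁻¹ h) = h := by
  rw [← sg_mul, mul_inv_cancel, sg_one]

theorem W_delta (s : G) (h : Ga G) : WW G s (delta h) = delta (sg G s h) := by
  unfold WW
  rw [perm_delta]
  rfl

theorem W_mul (s t : G) : WW G (s * t) = WW G s * WW G t := by
  apply op_ext
  intro h
  show WW G (s * t) (delta h) = WW G s (WW G t (delta h))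
  rw [W_delta, W_delta, W_delta, sg_mul]

theorem W_one : WW G 1 = 1 := by
  apply op_ext
  intro h
  rw [W_delta, sg_one]
  rfl

theorem W_inv (s : G) : WW G s * WW G s⁻¹ = 1 := by
  rw [← W_mul, mul_inv_cancel, W_one]

theorem W_inv' (s : G) : WW G s⁻¹ * WW G s = 1 := by
  rw [← W_mul, inv_mul_cancel, W_one]

theorem W_star (s : G) : star (WW G s) = WW G s⁻¹ := by
  apply op_ext
  intro h
  unfold WW
  rw [star_perm, perm_delta, perm_delta]
  congr 1
  show (sg G s).symm h = sg G s⁻¹ h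
  rw [MulEquiv.symm_apply_eq, sg_inv]

theorem W_lam (s : G) (h : Ga G) : WW G s * lam h = lam (sg G s h) * WW G s := by
  apply op_ext
  intro k
  show WW G s (lam h (delta k)) = lam (sg G s h) (WW G s (delta k))
  rw [lam_delta, W_delta, W_delta, lam_delta, map_mul]

theorem W_lam' (s : G) (h : Ga G) : WW G s⁻¹ * lam (sg G s h) = lam h * WW G s⁻¹ := by
  have h1 := W_lam G s h
  calc WW G s⁻¹ * lam (sg G s h) = WW G s⁻¹ * lam (sg G s h) * (WW G s * WW G s⁻¹) := by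
        rw [W_inv, mul_one]
    _ = WW G s⁻¹ * (lam (sg G s h) * WW G s) * WW G s⁻¹ := by simp only [mul_assoc]
    _ = (WW G s⁻¹ * WW G s) * lam h * WW G s⁻¹ := by rw [← h1]; simp only [mul_assoc]
    _ = lam h * WW G s⁻¹ := by rw [W_inv', one_mul]

theorem conj_mem (s : G) {x : Ell (Ga G) →L[ℂ] Ell (Ga G)} (hx : x ∈ LG (Ga G)) :
    WW G s * x * WW G s⁻¹ ∈ LG (Ga G) := by
  rw [mem_LG_iff] at hx ⊢
  intro Y hY
  have h1 : ∀ g, WW G s⁻¹ * Y * WW G s * lam g = lam g * (WW G s⁻¹ * Y * WW G s) := by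
    intro g
    calc WW G s⁻¹ * Y * WW G s * lam g = WW G s⁻¹ * Y * (WW G s * lam g) := by
          simp only [mul_assoc]
      _ = WW G s⁻¹ * (Y * lam (sg G s g)) * WW G s := by rw [W_lam]; simp only [mul_assoc]
      _ = (WW G s⁻¹ * lam (sg G s g)) * Y * WW G s := by rw [hY]; simp only [mul_assoc]
      _ = lam g * (WW G s⁻¹ * Y * WW G s) := by rw [W_lam']; simp only [mul_assoc]
  have h2 := hx _ h1
  calc WW G s * x * WW G s⁻¹ * Y = WW G s * x * WW G s⁻¹ * Y * (WW G s * WW G s⁻¹) := by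
        rw [W_inv, mul_one]
    _ = WW G s * (x * (WW G s⁻¹ * Y * WW G s)) * WW G s⁻¹ := by simp only [mul_assoc]
    _ = (WW G s * WW G s⁻¹) * Y * WW G s * x * WW G s⁻¹ := by rw [h2]; simp only [mul_assoc]
    _ = Y * (WW G s * x * WW G s⁻¹) := by rw [W_inv, one_mul]; simp only [mul_assoc]

theorem conj_mul (s : G) (x y : Ell (Ga G) →L[ℂ] Ell (Ga G)) :
    WW G s * (x * y) * WW G s⁻¹ = (WW G s * x * WW G s⁻¹) * (WW G s * y * WW G s⁻¹) := by
  calc WW G s * (x * y) * WW G s⁻¹ = WW G s * x * 1 * y * WW G s⁻¹ := by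
        simp only [mul_assoc, one_mul]
    _ = WW G s * x * (WW G s⁻¹ * WW G s) * y * WW G s⁻¹ := by rw [W_inv']
    _ = _ := by simp only [mul_assoc]

theorem conj_inv (s : G) (x : Ell (Ga G) →L[ℂ] Ell (Ga G)) :
    WW G s⁻¹ * (WW G s * x * WW G s⁻¹) * WW G s = x := by
  calc WW G s⁻¹ * (WW G s * x * WW G s⁻¹) * WW G s =
        (WW G s⁻¹ * WW G s) * x * (WW G s⁻¹ * WW G s) := by simp only [mul_assoc]
    _ = x := by rw [W_inv', one_mul, mul_one]

theorem conj_inv' (s : G) (x : Ell (Ga G) →L[ℂ] Ell (Ga G)) :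
    WW G s * (WW G s⁻¹ * x * WW G s) * WW G s⁻¹ = x := by
  calc WW G s * (WW G s⁻¹ * x * WW G s) * WW G s⁻¹ =
        (WW G s * WW G s⁻¹) * x * (WW G s * WW G s⁻¹) := by simp only [mul_assoc]
    _ = x := by rw [W_inv, one_mul, mul_one]

theorem conj_star (s : G) (x : Ell (Ga G) →L[ℂ] Ell (Ga G)) :
    WW G s * star x * WW G s⁻¹ = star (WW G s * x * WW G s⁻¹) := by
  rw [star_mul, star_mul, W_star, W_star, inv_inv, mul_assoc]

theorem conj_mem' (s : G) {x : Ell (Ga G) →L[ℂ] Ell (Ga G)} (hx : x ∈ LG (Ga G)) :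
    WW G s⁻¹ * x * WW G s ∈ LG (Ga G) := by
  have := conj_mem G s⁻¹ hx
  rwa [inv_inv] at this

/-- the automorphism `Ad W_s` -/
noncomputable def au (s : G) : El (LG (Ga G)) ≃⋆ₐ[ℂ] El (LG (Ga G)) where
  toFun x := ⟨WW G s * (x : Ell (Ga G) →L[ℂ] Ell (Ga G)) * WW G s⁻¹, conj_mem G s x.2⟩
  invFun x := ⟨WW G s⁻¹ * (x : Ell (Ga G) →L[ℂ] Ell (Ga G)) * WW G s, conj_mem' G s x.2⟩
  left_inv x := Subtype.ext (conj_inv G s x)
  right_inv x := Subtype.ext (conj_inv' G s x)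
  map_mul' x y := Subtype.ext (conj_mul G s x y)
  map_add' x y := Subtype.ext (by
    show WW G s * ((x : Ell (Ga G) →L[ℂ] Ell (Ga G)) + y) * WW G s⁻¹ =
      WW G s * (x : Ell (Ga G) →L[ℂ] Ell (Ga G)) * WW G s⁻¹ +
        WW G s * (y : Ell (Ga G) →L[ℂ] Ell (Ga G)) * WW G s⁻¹
    rw [mul_add, add_mul])
  map_star' x := Subtype.ext (conj_star G s x)
  map_smul' c x := Subtype.ext (by
    show WW G s * (c • (x : Ell (Ga G) →L[ℂ] Ell (Ga G))) * WW G s⁻¹ =
      c • (WW G s * (x : Ell (Ga G) →L[ℂ] Ell (Ga G)) * WW G s⁻¹)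
    rw [mul_smul_comm, smul_mul_assoc])

theorem au_apply (s : G) (x : El (LG (Ga G))) :
    ((au G s x : El (LG (Ga G))) : Ell (Ga G) →L[ℂ] Ell (Ga G)) = WW G s * x * WW G s⁻¹ := rfl

end AutAux

open AutAux in
/-- **AUT.** -/
theorem t_aut : S_aut := by
  intro G _
  refine ⟨{ toFun := au G, map_one' := ?_, map_mul' := ?_ }, fun s x => au_apply G s x⟩
  · apply StarAlgEquiv.ext
    intro x
    apply Subtype.ext
    rw [au_apply, inv_one, W_one, one_mul, mul_one]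
    rfl
  · intro s t
    apply StarAlgEquiv.ext
    intro x
    apply Subtype.ext
    rw [au_apply]
    show _ = ((au G s (au G t x) : El (LG (Ga G))) : Ell (Ga G) →L[ℂ] Ell (Ga G))
    rw [au_apply, au_apply, mul_inv_rev, W_mul, W_mul]
    simp only [mul_assoc]

end Pool.Agent.N469.EP
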