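import Mathlib
import Pool.Agent.N469.EP.Stm

set_option autoImplicit false

/-! CJ: square summable functions constant on twisted conjugacy classes. -/

namespace Pool.Agent.N469.EP

namespace CjAux

open Equiv

theorem swap_mem {X : Type} [DecidableEq X] (y z : X) : (Equiv.swap y z) ∈ FP X := by
  show {x | (Equiv.swap y z) x ≠ x}.Finite
  refine (Set.Finite.insert y (Set.finite_singleton z)).subset ?_
  intro x hx
  by_contra hcon
  simp only [Set.mem_insert_iff, Set.mem_singleton_iff, not_or] at hcon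
  exact hx (Equiv.swap_apply_of_ne_of_ne hcon.1 hcon.2)

/-- the conjugate, as a permutation -/
theorem conj_eq {X : Type} (t : Equiv.Perm X) (h k : FP X) :
    t * ((((cj t⁻¹ h)⁻¹ * k * h : FP X)) : Equiv.Perm X)
      = (h : Equiv.Perm X)⁻¹ * (t * (k : Equiv.Perm X)) * (h : Equiv.Perm X) := by
  show t * ((t⁻¹ * (h : Equiv.Perm X) * t⁻¹⁻¹)⁻¹ * (k : Equiv.Perm X) * (h : Equiv.Perm X))
      = (h : Equiv.Perm X)⁻¹ * (t * (k : Equiv.Perm X)) * (h : Equiv.Perm X)
  group

/-- a square summable function is not a nonzero constant on an infinite family -/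
theorem const_zero {Γ I : Type} [Infinite I] (f : Ell Γ) (e : I → Γ) (he : Function.Injective e)
    (c : ℂ) (h : ∀ i, f (e i) = c) : c = 0 := by
  have h1 := (lp.memℓp f).summable (by norm_num)
  have h2 := h1.comp_injective he
  have h3 : (fun i => ‖f i‖ ^ (2 : ENNReal).toReal) ∘ e = fun _ : I => ‖c‖ ^ (2 : ENNReal).toReal := by
    funext i
    show ‖f (e i)‖ ^ (2 : ENNReal).toReal = ‖c‖ ^ (2 : ENNReal).toReal
    rw [h i]
  rw [h3] at h2
  have h4 := (summable_const_iff _).1 h2
  have h5 : ‖c‖ = 0 := by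
    by_contra hne
    have h6 : 0 < ‖c‖ := lt_of_le_of_ne (norm_nonneg _) (Ne.symm hne)
    have h7 : 0 < ‖c‖ ^ (2 : ENNReal).toReal := Real.rpow_pos_of_pos h6 _
    linarith
  exact norm_eq_zero.1 h5

end CjAux

open CjAux in
theorem t_cj : S_cj := by
  classical
  intro X _ t f hf k hk
  obtain ⟨x, hx⟩ : ∃ x, (t * (k : Equiv.Perm X)) x ≠ x := by
    by_contra hcon
    push Not at hcon
    exact hk (Equiv.ext hcon)
  set y := (t * (k : Equiv.Perm X)) x with hy
  let I : Type := {z : X // z ∉ ({x, y} : Set X)}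
  have hI : Infinite I := by
    have h1 : (({x, y} : Set X)ᶜ).Infinite := by
      refine Set.Finite.infinite_compl ?_
      exact (Set.finite_singleton y).insert x
    exact Set.infinite_coe_iff.2 h1
  let hz : I → FP X := fun z => ⟨Equiv.swap y z.1, swap_mem y z.1⟩
  let e : I → FP X := fun z => (cj t⁻¹ (hz z))⁻¹ * k * hz z
  have hev : ∀ z : I, (t * ((e z : FP X) : Equiv.Perm X)) x = z.1 := by
    intro z
    have hzx : z.1 ≠ x := fun h => z.2 (by simp [h])
    show (t * ((((cj t⁻¹ (hz z))⁻¹ * k * (hz z) : FP X)) : Equiv.Perm X)) x = z.1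
    rw [conj_eq]
    show (Equiv.swap y z.1)⁻¹ ((t * (k : Equiv.Perm X)) ((Equiv.swap y z.1) x)) = z.1
    rw [Equiv.swap_apply_of_ne_of_ne (Ne.symm hx) (Ne.symm hzx), ← hy, Equiv.swap_inv,
      Equiv.swap_apply_left]
  refine const_zero f e ?_ (f k) ?_
  · intro z w hzw
    apply Subtype.ext
    rw [← hev z, ← hev w, hzw]
  · intro z
    exact hf (hz z) k

end Pool.Agent.N469.EP
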