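import Mathlib

set_option autoImplicit false

/-! Ergodic cocycle perturbations of strictly outer actions of discrete groups: definitions in terms
of operators. -/

namespace Pool.Agent.N469.EP.Short

open scoped InnerProductSpace

variable {H : Type} [NormedAddCommGroup H] [InnerProductSpace ℂ H] [CompleteSpace H]

/-- The bounded operators on a Hilbert space. -/
abbrev Op (K : Type) [NormedAddCommGroup K] [InnerProductSpace ℂ K] : Type := K →L[ℂ] K

/-- The operator `x` is a scalar. -/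
def Scalar {K : Type} [NormedAddCommGroup K] [InnerProductSpace ℂ K] (x : Op K) : Prop :=
  ∃ c : ℂ, ∀ ξ : K, x ξ = c • ξ

/-- The von Neumann algebra `M` is a II₁ factor: its centre is trivial, it is infinite-dimensional
(it contains `n` linearly independent elements for every `n`), and there is a unit vector `ω` such
that the (normal) state `x ↦ ⟨ω, x ω⟩` of `M` is a trace. -/
structure IsIIOne (M : VonNeumannAlgebra H) : Prop where
  factor : ∀ x ∈ M, (∀ y ∈ M, x * y = y * x) → Scalar x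
  infinite : ∀ n : ℕ, ∃ x : Fin n → Op H, (∀ i, x i ∈ M) ∧ LinearIndependent ℂ x
  trace : ∃ ω : H, ‖ω‖ = 1 ∧ ∀ x ∈ M, ∀ y ∈ M, ⟪ω, x (y ω)⟫_ℂ = ⟪ω, y (x ω)⟫_ℂ

variable {G : Type} [Group G]

/-- `α` is an action of the discrete group `G` on the von Neumann algebra `M` by
*-automorphisms. -/
structure IsAction (M : VonNeumannAlgebra H) (α : G → Op H → Op H) : Prop where
  mem : ∀ g, ∀ x ∈ M, α g x ∈ M
  add : ∀ g, ∀ x ∈ M, ∀ y ∈ M, α g (x + y) = α g x + α g y
  smul : ∀ g, ∀ c : ℂ, ∀ x ∈ M, α g (c • x) = c • α g x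
  mul : ∀ g, ∀ x ∈ M, ∀ y ∈ M, α g (x * y) = α g x * α g y
  star : ∀ g, ∀ x ∈ M, α g (star x) = star (α g x)
  one : ∀ x ∈ M, α 1 x = x
  comp : ∀ g h, ∀ x ∈ M, α (g * h) x = α g (α h x)

/-- The Hilbert space `ℓ²(G, H)`. -/
abbrev LTwo (G H : Type) [NormedAddCommGroup H] : Type := lp (fun _ : G => H) 2

/-- `T` is the operator `π_α(x)` on `ℓ²(G, H)`: `(T ξ)(g) = α_{g⁻¹}(x) ξ(g)`. -/
def IsPi (α : G → Op H → Op H) (x : Op H) (T : Op (LTwo G H)) : Prop :=
  ∀ (ξ : LTwo G H) (g : G), (T ξ) g = α g⁻¹ x (ξ g)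

/-- `T` is the operator `λ_s` on `ℓ²(G, H)`: `(T ξ)(g) = ξ(s⁻¹ g)`. -/
def IsLam (s : G) (T : Op (LTwo G H)) : Prop :=
  ∀ (ξ : LTwo G H) (g : G), (T ξ) g = ξ (s⁻¹ * g)

/-- The von Neumann crossed product `M ⋊_α G` (for discrete `G`), acting on `ℓ²(G, H)`: the
bicommutant of the operators `π_α(x)`, `x ∈ M`, and `λ_s`, `s ∈ G`. -/
def crossed (M : VonNeumannAlgebra H) (α : G → Op H → Op H) : Set (Op (LTwo G H)) :=
  Set.centralizer (Set.centralizer {T | (∃ x ∈ M, IsPi α x T) ∨ ∃ s : G, IsLam s T})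

/-- `α` is strictly outer: `π_α(M)' ∩ (M ⋊_α G) = ℂ 1`. -/
def StrictlyOuter (M : VonNeumannAlgebra H) (α : G → Op H → Op H) : Prop :=
  ∀ T ∈ crossed M α, (∀ x ∈ M, ∀ P : Op (LTwo G H), IsPi α x P → T * P = P * T) → Scalar T

/-- `v` is a 1-cocycle for `α`: `v_g` is a unitary of `M` and `v_{gh} = v_g α_g(v_h)`. -/
structure IsCocycle (M : VonNeumannAlgebra H) (α : G → Op H → Op H) (v : G → Op H) : Prop where
  mem : ∀ g, v g ∈ M
  left : ∀ g, star (v g) * v g = 1
  right : ∀ g, v g * star (v g) = 1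
  mul : ∀ g h, v (g * h) = v g * α g (v h)

/-- `β_g = Ad v_g ∘ α_g` is ergodic on `M`: the elements `x` of `M` with
`v_g α_g(x) v_g^* = x` for all `g` are scalars. -/
def ErgodicPerturbation (M : VonNeumannAlgebra H) (α : G → Op H → Op H) (v : G → Op H) : Prop :=
  ∀ x ∈ M, (∀ g, v g * α g x * star (v g) = x) → Scalar x

end Pool.Agent.N469.EP.Short
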