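import Mathlib
import Pool.Agent.N469.EP.Short
import Pool.Agent.N469.EP.Asm

set_option autoImplicit false

/-! The short form of the statement follows from the long one. -/

namespace Pool.Agent.N469.EP

open scoped InnerProductSpace Classical

variable {H : Type} [NormedAddCommGroup H] [InnerProductSpace ℂ H] [CompleteSpace H]
  {G : Type} [Group G] {M : VonNeumannAlgebra H}

/-- the action on operators -/
noncomputable def act (α : G →* (El M ≃⋆ₐ[ℂ] El M)) (g : G) (x : Short.Op H) : Short.Op H :=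
  if h : x ∈ M then ((α g ⟨x, h⟩ : El M) : H →L[ℂ] H) else 0

theorem act_mem (α : G →* (El M ≃⋆ₐ[ℂ] El M)) (g : G) (x : El M) :
    act α g (x : H →L[ℂ] H) = ((α g x : El M) : H →L[ℂ] H) := by
  unfold act
  rw [dif_pos (show (x : H →L[ℂ] H) ∈ M from x.2)]

theorem isAction (α : G →* (El M ≃⋆ₐ[ℂ] El M)) : Short.IsAction M (act α) where
  mem g x hx := by
    have := act_mem α g ⟨x, hx⟩
    simp only at this
    rw [this]
    exact (α g ⟨x, hx⟩).2
  add g x hx y hy := by
    have h1 := act_mem α g ⟨x, hx⟩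
    have h2 := act_mem α g ⟨y, hy⟩
    have h3 := act_mem α g (⟨x, hx⟩ + ⟨y, hy⟩)
    rw [map_add] at h3
    simp only at h1 h2
    rw [h1, h2]
    exact h3
  smul g c x hx := by
    have h1 := act_mem α g ⟨x, hx⟩
    have h3 := act_mem α g (c • ⟨x, hx⟩)
    rw [map_smul] at h3
    simp only at h1
    rw [h1]
    exact h3
  mul g x hx y hy := by
    have h1 := act_mem α g ⟨x, hx⟩
    have h2 := act_mem α g ⟨y, hy⟩
    have h3 := act_mem α g (⟨x, hx⟩ * ⟨y, hy⟩)
    rw [map_mul] at h3
    simp only at h1 h2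
    rw [h1, h2]
    exact h3
  star g x hx := by
    have h1 := act_mem α g ⟨x, hx⟩
    have h3 := act_mem α g (star (⟨x, hx⟩ : El M))
    rw [map_star] at h3
    simp only at h1
    rw [h1]
    exact h3
  one x hx := by
    have h1 := act_mem α 1 ⟨x, hx⟩
    rw [map_one] at h1
    exact h1
  comp g h x hx := by
    have h1 := act_mem α (g * h) ⟨x, hx⟩
    have h2 := act_mem α h ⟨x, hx⟩
    have h3 := act_mem α g (α h ⟨x, hx⟩)
    rw [map_mul] at h1
    simp only at h1 h2
    rw [h1, h2, h3]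
    rfl

theorem isPi_iff (α : G →* (El M ≃⋆ₐ[ℂ] El M)) (x : El M) (T : Short.Op (LTwo G H)) :
    Short.IsPi (act α) (x : H →L[ℂ] H) T ↔ IsPi α x T := by
  unfold Short.IsPi IsPi
  simp only [act_mem]

theorem gens_eq (α : G →* (El M ≃⋆ₐ[ℂ] El M)) :
    {T : Short.Op (LTwo G H) | (∃ x ∈ M, Short.IsPi (act α) x T) ∨ ∃ s : G, Short.IsLam s T} =
      gens α := by
  ext T
  unfold gens
  simp only [Set.mem_setOf_eq, Set.mem_union]
  constructor
  · rintro (⟨x, hx, h⟩ | h)
    · exact Or.inl ⟨⟨x, hx⟩, (isPi_iff α ⟨x, hx⟩ T).1 h⟩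
    · exact Or.inr h
  · rintro (⟨x, h⟩ | h)
    · exact Or.inl ⟨x, x.2, (isPi_iff α x T).2 h⟩
    · exact Or.inr h

theorem crossed_eq (α : G →* (El M ≃⋆ₐ[ℂ] El M)) :
    Short.crossed M (act α) = crossed α := by
  unfold Short.crossed crossed
  rw [gens_eq]

theorem scalar_of {K : Type} [NormedAddCommGroup K] [InnerProductSpace ℂ K] {x : Short.Op K} {c : ℂ}
    (h : x = c • (1 : K →L[ℂ] K)) : Short.Scalar x :=
  ⟨c, fun ξ => by rw [h]; rfl⟩

theorem conv (hlin : IsIIOne M) (α : G →* (El M ≃⋆ₐ[ℂ] El M)) (hso : StrictlyOuter α)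
    (hne : ∀ v : G → El M, IsCocycle α v → ¬ Ergodic (perturb α v)) :
    Short.IsIIOne M ∧ Short.IsAction M (act α) ∧ Short.StrictlyOuter M (act α) ∧
      ∀ v : G → Short.Op H, Short.IsCocycle M (act α) v →
        ¬ Short.ErgodicPerturbation M (act α) v := by
  refine ⟨⟨?_, ?_, ?_⟩, isAction α, ?_, ?_⟩
  · intro x hx hc
    obtain ⟨c, hc'⟩ := hlin.factor ⟨x, hx⟩ (fun y => Subtype.ext (hc y y.2))
    exact scalar_of (congrArg Subtype.val hc')
  · intro n
    have h1 := hlin.infinite
    have h2 : ∃ f : Fin n → El M, LinearIndependent ℂ f := by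
      by_contra hcon
      apply h1
      push Not at hcon
      have h3 : Module.rank ℂ (El M) < Cardinal.aleph0 := by
        by_contra h4
        rw [not_lt] at h4
        obtain ⟨s, hs, hs'⟩ := (le_rank_iff_exists_linearIndependent_finset
          (K := ℂ) (V := El M) (n := n)).1 ((Cardinal.nat_lt_aleph0 n).le.trans h4)
        let e : Fin n ≃ s := (Fintype.equivFinOfCardEq (by simpa using hs)).symm
        exact hcon _ (hs'.comp e e.injective)
      exact (Module.rank_lt_aleph0_iff).1 h3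
    obtain ⟨f, hf⟩ := h2
    refine ⟨fun i => (f i : H →L[ℂ] H), fun i => (f i).2, ?_⟩
    exact hf.map' (M.toStarSubalgebra.subtype.toLinearMap) (LinearMap.ker_eq_bot.2
      Subtype.val_injective)
  · obtain ⟨ω, h1, h2⟩ := hlin.trace
    exact ⟨ω, h1, fun x hx y hy => h2 ⟨x, hx⟩ ⟨y, hy⟩⟩
  · intro T hT hc
    rw [crossed_eq] at hT
    obtain ⟨c, hc'⟩ := hso T hT (fun x P hP => hc x x.2 P ((isPi_iff α x P).2 hP))
    exact scalar_of hc'
  · intro v hv herg
    have hv' : IsCocycle α (fun g => (⟨v g, hv.mem g⟩ : El M)) := by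
      refine ⟨fun g => Subtype.ext (hv.left g), fun g => Subtype.ext (hv.right g), fun g h => ?_⟩
      apply Subtype.ext
      have h1 := hv.mul g h
      have h2 := act_mem α g ⟨v h, hv.mem h⟩
      simp only at h2
      rw [h2] at h1
      exact h1
    refine hne _ hv' ?_
    intro x hx
    obtain ⟨c, hc⟩ := herg (x : H →L[ℂ] H) x.2 (by
      intro g
      rw [act_mem]
      exact congrArg Subtype.val (hx g))
    refine ⟨c, Subtype.ext ?_⟩
    apply ContinuousLinearMap.ext
    exact hc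

end Pool.Agent.N469.EP
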