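import Pool.Agent.N469.EP.Stm

/-!
# ERG/FAC (helper570): `L(FP X)` is a factor
-/

set_option autoImplicit false

namespace Pool.Agent.N469.EP.FacAux

open scoped InnerProductSpace

/-- the coefficients of a central element are constant on conjugacy classes -/
lemma central_coeff {Γ : Type} [Group Γ] (x : El (LG Γ))
    (hx : ∀ y : El (LG Γ), x * y = y * x) (h k : Γ) :
    ((x : Ell Γ →L[ℂ] Ell Γ) (delta 1)) (h⁻¹ * k * h) = ((x : Ell Γ →L[ℂ] Ell Γ) (delta 1)) k := by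
  have h1 := hx ⟨lam h, lam_mem h⟩
  have h2 : (x : Ell Γ →L[ℂ] Ell Γ) * lam h = lam h * (x : Ell Γ →L[ℂ] Ell Γ) :=
    congrArg Subtype.val h1
  have h3 := congrArg (fun T : Ell Γ →L[ℂ] Ell Γ => (T (delta 1)) (k * h)) h2
  have h4 : ((x : Ell Γ →L[ℂ] Ell Γ) (lam h (delta 1))) (k * h) =
      (lam h ((x : Ell Γ →L[ℂ] Ell Γ) (delta 1))) (k * h) := h3
  rw [lam_delta, mul_one, lam_apply, LG_delta x.2, mul_inv_cancel_right] at h4
  rw [h4, mul_assoc]

end Pool.Agent.N469.EP.FacAux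

namespace Pool.Agent.N469.EP

open scoped InnerProductSpace

/-- **FAC**: `L(FP X)` is a factor. -/
theorem t_fac (hcj : S_cj) : S_fac := by
  intro X _ x hx
  refine ⟨((x : Ell (FP X) →L[ℂ] Ell (FP X)) (delta 1)) 1, ?_⟩
  have hcj1 : ∀ h : FP X, cj (1 : Equiv.Perm X)⁻¹ h = h := by
    intro h
    apply Subtype.ext
    show (1 : Equiv.Perm X)⁻¹ * (h : Equiv.Perm X) * (1 : Equiv.Perm X)⁻¹⁻¹ = h
    simp
  have hv : ∀ k : FP X, k ≠ 1 → ((x : Ell (FP X) →L[ℂ] Ell (FP X)) (delta 1)) k = 0 := by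
    intro k hk
    apply hcj X 1 _ _ k
    · rw [one_mul]
      intro h
      exact hk (Subtype.ext h)
    · intro h k
      rw [hcj1]
      exact FacAux.central_coeff x hx h k
  apply Subtype.ext
  apply LG_ext x.2 (SetLike.coe_mem _)
  ext k
  show _ = ((((x : Ell (FP X) →L[ℂ] Ell (FP X)) (delta 1)) 1) • delta 1 : Ell (FP X)) k
  rw [lp.coeFn_smul, Pi.smul_apply]
  by_cases hk : k = 1
  · rw [hk, delta_self, smul_eq_mul, mul_one]
  · rw [hv k hk, delta_ne hk, smul_zero]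

end Pool.Agent.N469.EP
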