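import Pool.Agent.N469.EP.Stm

set_option autoImplicit false

/-! Project ERG (helper469), part FIX (helper186): the fixed element. -/

namespace Pool.Agent.N469.EP

namespace FixAux

theorem supp_countable {Γ : Type} (f : Ell Γ) : {k | f k ≠ 0}.Countable := by
  have h1 : (0 : ℝ) < (2 : ENNReal).toReal := by norm_num
  have hs := (lp.memℓp f).summable h1
  have hc := hs.countable_support
  refine hc.mono ?_
  intro k hk
  rw [Function.mem_support]
  have h2 : ‖f k‖ ≠ 0 := norm_ne_zero_iff.2 hk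
  exact (Real.rpow_pos_of_pos (lt_of_le_of_ne (norm_nonneg _) h2.symm) _).ne'

theorem exists_pair (U : Set ℝ) (hU : U.Countable) : ∃ i j : ℝ, i ∉ U ∧ j ∉ U ∧ i ≠ j := by
  have h1 : ¬ (Uᶜ).Countable := by
    intro h
    have := hU.union h
    rw [Set.union_compl_self] at this
    exact Set.not_countable_univ this
  have h2 : ¬ (Uᶜ).Subsingleton := fun h => h1 h.countable
  rw [Set.not_subsingleton_iff] at h2
  obtain ⟨i, hi, j, hj, hij⟩ := h2
  exact ⟨i, j, hi, hj, hij⟩

open Classical in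
/-- the transposition -/
noncomputable def sw {X : Type} (a b : X) : FP X :=
  ⟨Equiv.swap a b, by
    refine (Set.toFinite {a, b}).subset ?_
    intro x hx
    by_contra hcon
    simp only [Set.mem_insert_iff, Set.mem_singleton_iff, not_or] at hcon
    exact hx (Equiv.swap_apply_of_ne_of_ne hcon.1 hcon.2)⟩

theorem sw_ne_one {X : Type} {a b : X} (h : a ≠ b) : sw a b ≠ 1 := by
  classical
  intro hcon
  have h1 : (sw a b : Equiv.Perm X) a = (1 : Equiv.Perm X) a := by rw [hcon]; rfl
  have h2 : (sw a b : Equiv.Perm X) a = b := Equiv.swap_apply_left a b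
  rw [h2] at h1
  exact h h1.symm

theorem perm_comm {X : Type} {a b : X} (t : Equiv.Perm X) (ha : t a = a) (hb : t b = b) :
    t * (sw a b : Equiv.Perm X) = (sw a b : Equiv.Perm X) * t := by
  classical
  show t * Equiv.swap a b = Equiv.swap a b * t
  rw [Equiv.mul_swap_eq_swap_mul, ha, hb]

theorem sw_comm {X : Type} {a b : X} (k : FP X) (ha : (k : Equiv.Perm X) a = a)
    (hb : (k : Equiv.Perm X) b = b) : k * sw a b = sw a b * k :=
  Subtype.ext (perm_comm (k : Equiv.Perm X) ha hb)

end FixAux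

open FixAux in
theorem t_fix : S_fix := by
  intro G _ _ α hα v
  set f : G → Ell (Ga G) := fun g => (v g : Ell (Ga G) →L[ℂ] Ell (Ga G)) (delta 1) with hf
  set C : Set (Ga G) := ⋃ g, {k | f g k ≠ 0} with hC
  have hCc : C.Countable := Set.countable_iUnion (fun g => supp_countable (f g))
  set U : Set (ℝ ⊕ G) := ⋃ k ∈ C, {x | (k : Equiv.Perm (ℝ ⊕ G)) x ≠ x} with hU
  have hUc : U.Countable := hCc.biUnion (fun k _ => (k.2 : Set.Finite _).countable)
  obtain ⟨i, j, hi, hj, hij⟩ := exists_pair (Sum.inl ⁻¹' U)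
    (hUc.preimage_of_injOn (Sum.inl_injective.injOn))
  set a : ℝ ⊕ G := Sum.inl i with ha
  set b : ℝ ⊕ G := Sum.inl j with hb
  have hab : a ≠ b := fun h => hij (Sum.inl_injective h)
  set h : Ga G := sw a b with hh
  have hcomm : ∀ k ∈ C, k * h = h * k := by
    intro k hk
    refine sw_comm k ?_ ?_
    · by_contra hcon
      exact hi (Set.mem_biUnion hk hcon)
    · by_contra hcon
      exact hj (Set.mem_biUnion hk hcon)
  have htr : ∀ s : G, tr G s⁻¹ = (tr G s)⁻¹ := by
    intro s
    ext x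
    rcases x with x | x
    · rfl
    · rfl
  have hsgh : ∀ s : G, sg G s h = h := by
    intro s
    apply Subtype.ext
    show tr G s * (h : Equiv.Perm (ℝ ⊕ G)) * (tr G s)⁻¹ = h
    rw [perm_comm (tr G s) rfl rfl, mul_assoc, mul_inv_cancel, mul_one]
  have hsgi : ∀ (s : G) (k : Ga G), sg G s (sg G s⁻¹ k) = k := by
    intro s k
    apply Subtype.ext
    show tr G s * (tr G s⁻¹ * (k : Equiv.Perm (ℝ ⊕ G)) * (tr G s⁻¹)⁻¹) * (tr G s)⁻¹ = k
    rw [htr]
    group
  have hWW : ∀ (s : G) (k : Ga G), WW G s (delta k) = delta (sg G s k) := by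
    intro s k
    unfold WW
    rw [perm_delta]
    rfl
  refine ⟨⟨lam h, lam_mem h⟩, ?_, ?_, ?_⟩
  · intro g
    apply Subtype.ext
    rw [hα]
    apply op_ext
    intro k
    show WW G g (lam h (WW G g⁻¹ (delta k))) = lam h (delta k)
    rw [hWW, lam_delta, hWW, map_mul, hsgh, hsgi, lam_delta]
  · intro g
    apply Subtype.ext
    refine LG_ext (Subtype.property _) (Subtype.property _) ?_
    show (v g : Ell (Ga G) →L[ℂ] Ell (Ga G)) (lam h (delta 1)) = lam h (f g)
    rw [lam_delta, mul_one]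
    ext k
    rw [LG_delta (v g).2, lam_apply]
    show f g (k * h⁻¹) = f g (h⁻¹ * k)
    by_cases h1 : f g (k * h⁻¹) = 0
    · by_cases h2 : f g (h⁻¹ * k) = 0
      · rw [h1, h2]
      · have := hcomm _ (Set.mem_iUnion.2 ⟨g, h2⟩)
        have h3 : k * h⁻¹ = h⁻¹ * k := by
          rw [mul_inv_eq_iff_eq_mul, this]
          group
        rw [h3]
    · have := hcomm _ (Set.mem_iUnion.2 ⟨g, h1⟩)
      have h3 : h⁻¹ * k = k * h⁻¹ := by
        rw [inv_mul_eq_iff_eq_mul, ← this]
        group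
      rw [h3]
  · intro c hcon
    have h1 : (lam h : Ell (Ga G) →L[ℂ] Ell (Ga G)) (delta 1) h = c * (delta (1 : Ga G)) h := by
      have h2 : (lam h : Ell (Ga G) →L[ℂ] Ell (Ga G)) =
          c • (1 : Ell (Ga G) →L[ℂ] Ell (Ga G)) := congrArg Subtype.val hcon
      rw [h2]
      rfl
    rw [lam_delta, mul_one, delta_self, delta_ne (sw_ne_one hab), mul_zero] at h1
    exact one_ne_zero h1

end Pool.Agent.N469.EP
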