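import Pool.Agent.N469.EP.Stm

set_option autoImplicit false

/-! The group of finitely supported permutations of an infinite set is infinite. -/

namespace Pool.Agent.N469.EP

open scoped Classical in
/-- **The group of finitely supported permutations of an infinite set is infinite.** -/
theorem t_ifp : S_ifp := by
  intro X _
  obtain ⟨x⟩ : Nonempty X := inferInstance
  let f : X → FP X := fun z => ⟨Equiv.swap x z, by
    refine (((Set.finite_singleton z).insert x)).subset ?_
    intro y hy
    by_contra hcon
    rw [Set.mem_insert_iff, Set.mem_singleton_iff, not_or] at hcon
    exact hy (Equiv.swap_apply_of_ne_of_ne hcon.1 hcon.2)⟩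
  refine Infinite.of_injective f ?_
  intro z z' h
  have h1 : Equiv.swap x z = Equiv.swap x z' := congrArg Subtype.val h
  have h2 := congrArg (fun e : Equiv.Perm X => e x) h1
  beta_reduce at h2
  rw [Equiv.swap_apply_left, Equiv.swap_apply_left] at h2
  exact h2

end Pool.Agent.N469.EP
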