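import Pool.Agent.N469.EP.Stm

set_option autoImplicit false

/-! INF: `L(Γ)` is infinite-dimensional. -/

namespace Pool.Agent.N469.EP

open scoped InnerProductSpace

namespace InfAux

variable {Γ : Type} [Group Γ]

/-- the linear map `x ↦ x (delta 1)` -/
noncomputable def evl (Γ : Type) [Group Γ] : El (LG Γ) →ₗ[ℂ] Ell Γ where
  toFun x := (x : Ell Γ →L[ℂ] Ell Γ) (delta 1)
  map_add' _ _ := rfl
  map_smul' _ _ := rfl

theorem orthonormal_delta : Orthonormal ℂ (fun g : Γ => (delta g : Ell Γ)) := by
  constructor
  · intro g
    exact norm_delta g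
  · intro g h hgh
    rw [inner_delta]
    exact delta_ne hgh

/-- the translations as elements of the algebra -/
noncomputable def lamE (g : Γ) : El (LG Γ) := ⟨lam g, lam_mem g⟩

theorem indep : LinearIndependent ℂ (fun g : Γ => lamE g) := by
  apply LinearIndependent.of_comp (evl Γ)
  have h : (evl Γ) ∘ (fun g : Γ => lamE g) = fun g : Γ => (delta g : Ell Γ) := by
    funext g
    show lam g (delta 1) = delta g
    rw [lam_delta, mul_one]
  rw [h]
  exact orthonormal_delta.linearIndependent

end InfAux

theorem t_inf : S_inf := by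
  intro Γ _ _ hfin
  have h : Finite Γ := (InfAux.indep (Γ := Γ)).finite
  exact not_finite Γ

end Pool.Agent.N469.EP
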