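import Mathlib
import Pool.Agent.N469.EP.Stm

set_option autoImplicit false
set_option linter.unusedSectionVars false

/-! Leaf SOA of project ERG (helper469): the operators of the crossed product commuting with
`π(M)` (helper543). -/

namespace Pool.Agent.N469.EP

open scoped InnerProductSpace

namespace SoaAux

theorem norm_perm {Γ : Type} [Group Γ] (e : Γ ≃ Γ) (f : Ell Γ) : ‖perm e f‖ = ‖f‖ := by
  have h1 : (0 : ℝ) < (2 : ENNReal).toReal := by norm_num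
  rw [lp.norm_eq_tsum_rpow h1, lp.norm_eq_tsum_rpow h1]
  congr 1
  exact e.tsum_eq (fun h => ‖f h‖ ^ (2 : ENNReal).toReal)

/-- The isometry of `ℓ²(Γ)` given by a permutation of `Γ`. -/
noncomputable def pI {Γ : Type} [Group Γ] (e : Γ ≃ Γ) : Ell Γ →ₗᵢ[ℂ] Ell Γ where
  toLinearMap := (perm e : Ell Γ →L[ℂ] Ell Γ)
  norm_map' := fun f => norm_perm e f

theorem pI_apply {Γ : Type} [Group Γ] (e : Γ ≃ Γ) (f : Ell Γ) : pI e f = perm e f := rfl

variable {G : Type} [Group G]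

theorem tr_inv (s : G) : tr G s⁻¹ = (tr G s)⁻¹ := by
  ext x
  rcases x with x | x
  · rfl
  · rfl

theorem tr_one : tr G 1 = 1 := by
  ext x
  rcases x with x | x
  · rfl
  · simp [tr]

theorem cj_one {X : Type} (h : FP X) : cj (1 : Equiv.Perm X) h = h := by
  apply Subtype.ext
  show (1 : Equiv.Perm X) * h * (1 : Equiv.Perm X)⁻¹ = h
  group

theorem sg_inv_symm (s : G) (x : Ga G) : (sg G s⁻¹).symm x = sg G s x := by
  apply Subtype.ext
  show (tr G s⁻¹)⁻¹ * (x : Equiv.Perm (ℝ ⊕ G)) * tr G s⁻¹ = tr G s * x * (tr G s)⁻¹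
  rw [tr_inv, inv_inv]

theorem WW_lam (s : G) (h : Ga G) : WW G s * lam h * WW G s⁻¹ = lam (sg G s h) := by
  apply ContinuousLinearMap.ext
  intro f
  ext k
  show f ((sg G s⁻¹).symm (h⁻¹ * (sg G s).symm k)) = f ((sg G s h)⁻¹ * k)
  rw [sg_inv_symm, map_mul, map_inv, MulEquiv.apply_symm_apply]

/-- the operator `π(u_h)` -/
noncomputable def PP (h : Ga G) : LTwo G (Ell (Ga G)) →L[ℂ] LTwo G (Ell (Ga G)) :=
  tw (Equiv.refl G) (fun g => pI (Equiv.mulLeft (cj (tr G g)⁻¹ h)⁻¹))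

theorem PP_apply (h : Ga G) (ξ : LTwo G (Ell (Ga G))) (g : G) :
    (PP h ξ) g = lam (cj (tr G g)⁻¹ h) (ξ g) := rfl

/-- the operator `1 ⊗ ρ_{h⁻¹}` -/
noncomputable def RR (h : Ga G) : LTwo G (Ell (Ga G)) →L[ℂ] LTwo G (Ell (Ga G)) :=
  tw (Equiv.refl G) (fun _ => pI (Equiv.mulRight h⁻¹))

theorem RR_apply (h : Ga G) (ξ : LTwo G (Ell (Ga G))) (g : G) :
    (RR h ξ) g = rho h⁻¹ (ξ g) := rfl

theorem PP_isPi {α : G →* (El (LG (Ga G)) ≃⋆ₐ[ℂ] El (LG (Ga G)))} (hα : IsAd α) (h : Ga G) :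
    IsPi α (⟨lam h, lam_mem h⟩ : El (LG (Ga G))) (PP h) := by
  intro ξ g
  rw [hα, PP_apply]
  show lam (cj (tr G g)⁻¹ h) (ξ g) = (WW G g⁻¹ * lam h * WW G g⁻¹⁻¹) (ξ g)
  rw [WW_lam, ← tr_inv]

theorem RR_mem (α : G →* (El (LG (Ga G)) ≃⋆ₐ[ℂ] El (LG (Ga G)))) (h : Ga G) :
    RR h ∈ Set.centralizer (gens α) := by
  intro A hA
  apply ContinuousLinearMap.ext
  intro ξ
  ext g : 2
  show (A (RR h ξ)) g = (RR h (A ξ)) g
  rcases hA with ⟨x, hx⟩ | ⟨s, hs⟩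
  · rw [hx, RR_apply, RR_apply, hx]
    have h1 := LG_rho (α g⁻¹ x).2 h⁻¹
    exact congrArg (fun Y : Ell (Ga G) →L[ℂ] Ell (Ga G) => Y (ξ g)) h1
  · rw [hs, RR_apply, RR_apply, hs]

theorem PP_xi0 (h : Ga G) : PP h (xi0 G) = RR h (xi0 G) := by
  classical
  ext g : 2
  rw [PP_apply, RR_apply]
  by_cases hg : g = 1
  · subst hg
    have h1 : (xi0 G) 1 = (delta (1 : Ga G)) := by simp [xi0]
    rw [h1, lam_delta, rho_delta, tr_one, inv_one, cj_one, inv_inv, mul_one, one_mul]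
  · have h1 : (xi0 G) g = 0 := by simp [xi0, hg]
    rw [h1, map_zero, map_zero]

end SoaAux

open SoaAux in
theorem t_soa : S_soa := by
  intro G _ α hα T hT hcomm g h k
  have h1 : T * PP h = PP h * T := hcomm _ _ (PP_isPi hα h)
  have h2 : RR h * T = T * RR h := hT (RR h) (RR_mem α h)
  have h3 : PP h (T (xi0 G)) = RR h (T (xi0 G)) := by
    show (PP h * T) (xi0 G) = (RR h * T) (xi0 G)
    rw [← h1, h2]
    show T (PP h (xi0 G)) = T (RR h (xi0 G))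
    rw [PP_xi0]
  have h4 : (PP h (T (xi0 G))) g = (RR h (T (xi0 G))) g := by rw [h3]
  rw [PP_apply, RR_apply] at h4
  have h5 := congrArg (fun f : Ell (Ga G) => f (k * h)) h4
  have h6 : (T (xi0 G) g) ((cj (tr G g)⁻¹ h)⁻¹ * (k * h)) = (T (xi0 G) g) (k * h * h⁻¹) := h5
  rw [mul_inv_cancel_right] at h6
  rw [mul_assoc]
  exact h6

end Pool.Agent.N469.EP
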