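import Pool.Agent.N469.EP.Stm

set_option autoImplicit false

/-! The vector `δ_1 ⊗ δ_1` is separating for the crossed product. -/

namespace Pool.Agent.N469.EP

namespace SobAux

/-- the isometry `f ↦ f ∘ e` -/
noncomputable def pI {Γ : Type} (e : Γ ≃ Γ) : Ell Γ →ₗᵢ[ℂ] Ell Γ :=
  { (perm e).toLinearMap with
    norm_map' := fun f => by
      show ‖perm e f‖ = ‖f‖
      unfold perm tw
      simp only [LinearIsometry.coe_toContinuousLinearMap, LinearIsometry.norm_map] }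

theorem pI_apply {Γ : Type} (e : Γ ≃ Γ) (f : Ell Γ) : pI e f = perm e f := rfl

variable {G : Type} [Group G]

theorem tr_inv (s : G) : tr G s⁻¹ = (tr G s)⁻¹ := by
  rw [eq_inv_iff_mul_eq_one]
  ext x
  cases x <;> simp [tr]

theorem sg_inv (s : G) (h : Ga G) : (sg G s⁻¹).symm h = sg G s h := by
  apply Subtype.ext
  show (tr G s⁻¹)⁻¹ * (h : Equiv.Perm (ℝ ⊕ G)) * tr G s⁻¹ = tr G s * h * (tr G s)⁻¹
  rw [tr_inv, inv_inv]

theorem WW_inv (s : G) (f : Ell (Ga G)) : WW G s (WW G s⁻¹ f) = f := by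
  ext h
  show f ((sg G s⁻¹).symm ((sg G s).symm h)) = f h
  rw [sg_inv, MulEquiv.apply_symm_apply]

/-- the operator `1 ⊗ ρ_h` -/
noncomputable def Rr (G : Type) [Group G] (h : Ga G) :
    LTwo G (Ell (Ga G)) →L[ℂ] LTwo G (Ell (Ga G)) :=
  tw (Equiv.refl G) (fun _ => pI (Equiv.mulRight h))

/-- the operator `ρ_s ⊗ W_s` -/
noncomputable def Vv (s : G) : LTwo G (Ell (Ga G)) →L[ℂ] LTwo G (Ell (Ga G)) :=
  tw (Equiv.mulRight s) (fun _ => pI (sg G s).symm.toEquiv)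

theorem Rr_apply (h : Ga G) (ξ : LTwo G (Ell (Ga G))) (g : G) :
    (Rr G h ξ) g = rho h (ξ g) := rfl

theorem Vv_apply (s : G) (ξ : LTwo G (Ell (Ga G))) (g : G) :
    (Vv s ξ) g = WW G s (ξ (g * s)) := rfl

variable (α : G →* (El (LG (Ga G)) ≃⋆ₐ[ℂ] El (LG (Ga G))))

theorem Rr_mem (h : Ga G) : Rr G h ∈ Set.centralizer (gens α) := by
  rw [Set.mem_centralizer_iff]
  rintro P (⟨x, hP⟩ | ⟨s, hP⟩)
  · ext ξ : 1
    apply lp.ext
    funext g
    show (P (Rr G h ξ)) g = (Rr G h (P ξ)) g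
    rw [hP, Rr_apply, Rr_apply, hP]
    have h1 := LG_rho (α g⁻¹ x).2 h
    exact congrArg (fun S : Ell (Ga G) →L[ℂ] Ell (Ga G) => S (ξ g)) h1
  · ext ξ : 1
    apply lp.ext
    funext g
    show (P (Rr G h ξ)) g = (Rr G h (P ξ)) g
    rw [hP, Rr_apply, Rr_apply, hP]

theorem Vv_mem (hα : IsAd α) (s : G) : Vv s ∈ Set.centralizer (gens α) := by
  rw [Set.mem_centralizer_iff]
  rintro P (⟨x, hP⟩ | ⟨t, hP⟩)
  · ext ξ : 1
    apply lp.ext
    funext g
    show (P (Vv s ξ)) g = (Vv s (P ξ)) g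
    rw [hP, Vv_apply, Vv_apply, hP]
    have h1 : α (g * s)⁻¹ x = α s⁻¹ (α g⁻¹ x) := by
      rw [mul_inv_rev, map_mul]
      rfl
    have h2 := hα s⁻¹ (α g⁻¹ x)
    rw [h1, h2, inv_inv]
    show _ = WW G s (WW G s⁻¹ (((α g⁻¹ x : El (LG (Ga G))) : Ell (Ga G) →L[ℂ] Ell (Ga G))
      (WW G s (ξ (g * s)))))
    rw [WW_inv]
  · ext ξ : 1
    apply lp.ext
    funext g
    show (P (Vv s ξ)) g = (Vv s (P ξ)) g
    rw [hP, Vv_apply, Vv_apply, hP, mul_assoc]

theorem xi0_one : (xi0 G) 1 = (delta 1 : Ell (Ga G)) := by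
  classical
  unfold xi0
  exact lp.single_apply_self _ _ _

theorem xi0_ne {g : G} (hg : g ≠ 1) : (xi0 G) g = (0 : Ell (Ga G)) := by
  classical
  unfold xi0
  exact lp.single_apply_ne _ _ _ hg

theorem reach [DecidableEq G] (g : G) (k : Ga G) :
    Vv g⁻¹ (Rr G ((sg G g⁻¹).symm k)⁻¹ (xi0 G)) =
      lp.single (E := fun _ : G => Ell (Ga G)) 2 g (delta k) := by
  apply lp.ext
  funext g'
  rw [Vv_apply, Rr_apply]
  by_cases h : g' = g
  · subst h
    rw [mul_inv_cancel, xi0_one, rho_delta, one_mul, inv_inv, lp.single_apply_self]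
    unfold WW
    rw [perm_delta]
    congr 1
    exact (sg G g'⁻¹).apply_symm_apply k
  · rw [lp.single_apply_ne _ _ _ h, xi0_ne (fun h1 => h (mul_inv_eq_one.1 h1)), map_zero, map_zero]

end SobAux

open SobAux

theorem t_sob : S_sob := by
  classical
  intro G _ α hα T hT c hc
  have hR : ∀ (h : Ga G) ξ, T (Rr G h ξ) = Rr G h (T ξ) := fun h ξ => by
    have h1 := (Set.mem_centralizer_iff.1 hT) _ (Rr_mem α h)
    exact congrArg (fun S : LTwo G (Ell (Ga G)) →L[ℂ] LTwo G (Ell (Ga G)) => S ξ) h1.symm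
  have hV : ∀ (s : G) ξ, T (Vv s ξ) = Vv s (T ξ) := fun s ξ => by
    have h1 := (Set.mem_centralizer_iff.1 hT) _ (Vv_mem α hα s)
    exact congrArg (fun S : LTwo G (Ell (Ga G)) →L[ℂ] LTwo G (Ell (Ga G)) => S ξ) h1.symm
  have hb : ∀ (g : G) (k : Ga G), T (lp.single (E := fun _ : G => Ell (Ga G)) 2 g (delta k)) =
      c • lp.single (E := fun _ : G => Ell (Ga G)) 2 g (delta k) := by
    intro g k
    rw [← reach, hV, hR, hc, map_smul, map_smul]
  have hop : ∀ g : G, T.comp (lp.singleContinuousLinearMap ℂ (fun _ : G => Ell (Ga G)) 2 g) =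
      (c • (1 : LTwo G (Ell (Ga G)) →L[ℂ] LTwo G (Ell (Ga G)))).comp
        (lp.singleContinuousLinearMap ℂ (fun _ : G => Ell (Ga G)) 2 g) := by
    intro g
    apply op_ext
    intro k
    exact hb g k
  exact lp.ext_continuousLinearMap (by norm_num) hop

end Pool.Agent.N469.EP
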