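import Pool.Agent.N469.EP.Stm

set_option autoImplicit false

/-! TR: the vector state of `δ_1` is a trace on `L(Γ)` (helper344). -/

namespace Pool.Agent.N469.EP

open scoped InnerProductSpace

namespace TrAux

variable {Γ : Type} [Group Γ]

/-- expansion of a bounded operator in the basis -/
theorem expand {E : Type} [NormedAddCommGroup E] [InnerProductSpace ℂ E] (U : Ell Γ →L[ℂ] E)
    (f : Ell Γ) : HasSum (fun g => (f g) • U (delta g)) (U f) := by
  classical
  have h1 : HasSum (fun g => lp.single 2 g (f g)) f := lp.hasSum_single (by norm_num) f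
  have hd : ∀ g, (lp.single 2 g (f g) : Ell Γ) = (f g) • delta g := by
    intro g
    ext k
    by_cases hk : k = g
    · subst hk
      simp [delta_self]
    · simp [delta_ne hk, hk]
  have h2 := U.hasSum h1
  have h3 : (fun g => (f g) • U (delta g)) = fun g => U (lp.single 2 g (f g)) := by
    funext g
    rw [hd, map_smul]
  rw [h3]
  exact h2

/-- the coefficient at the unit element -/
theorem coef {x : Ell Γ →L[ℂ] Ell Γ} (hx : x ∈ LG Γ) (f : Ell Γ) :
    HasSum (fun h => f h * (x (delta 1)) h⁻¹) ((x f) 1) := by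
  have h1 := expand ((innerSL ℂ (delta 1 : Ell Γ)) ∘L x) f
  have h2 : ((innerSL ℂ (delta 1 : Ell Γ)) ∘L x) f = (x f) 1 := by
    rw [ContinuousLinearMap.comp_apply, innerSL_apply_apply, inner_delta]
  have h3 : (fun g => (f g) • ((innerSL ℂ (delta 1 : Ell Γ)) ∘L x) (delta g)) =
      fun h => f h * (x (delta 1)) h⁻¹ := by
    funext g
    rw [ContinuousLinearMap.comp_apply, innerSL_apply_apply, inner_delta, LG_delta hx, one_mul,
      smul_eq_mul]
  rw [h2, h3] at h1
  exact h1

end TrAux

open TrAux in
theorem t_tr : S_tr := by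
  intro Γ _ x y hx hy
  rw [inner_delta, inner_delta]
  have h1 := coef hx (y (delta 1))
  have h2 := coef hy (x (delta 1))
  have h3 := (Equiv.inv Γ).hasSum_iff.2 h2
  have h4 : (fun h => (x (delta 1)) h * (y (delta 1)) h⁻¹) ∘ (Equiv.inv Γ) =
      fun h => (y (delta 1)) h * (x (delta 1)) h⁻¹ := by
    funext h
    simp only [Function.comp_apply, Equiv.inv_apply, inv_inv]
    exact mul_comm _ _
  rw [h4] at h3
  exact h1.unique h3

end Pool.Agent.N469.EP
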